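import Pool.Agent.Lib.MP_f76be0_co.Main

namespace Pool.Agent.Lib.MP_f76be0_co.Old.DenseThird

open Pool.Agent.Lib.MP_f76be0_co

/-- Every `k`-connected graph on `n` vertices with minimum degree at least `n / 3 + 20 k log n`
has, for every root `r`, `k` pairwise `r`-independent spanning trees. -/
theorem result {V : Type} [Fintype V] [DecidableEq V] (G : SimpleGraph V) [DecidableRel G.Adj]
    (k : ℕ) (hk : KConnected G k)
    (hδ : (Fintype.card V : ℝ) / 3 + 20 * k * Real.log (Fintype.card V) ≤ (G.minDegree : ℝ))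
    (r : V) :
    ∃ T : Fin k → SimpleGraph V, (∀ i, T i ≤ G ∧ (T i).IsTree) ∧
      ∀ i j, i ≠ j → Independent r (T i) (T j) := by
  rcases Nat.eq_zero_or_pos k with rfl | hk1
  · exact ⟨fun i => i.elim0, fun i => i.elim0, fun i => i.elim0⟩
  · have hdeg : ∀ v, G.minDegree ≤ (nb G v).card := by
      intro v
      have e : (nb G v).card = G.degree v := by
        rw [← SimpleGraph.card_neighborFinset_eq_degree]
        congr 1
        ext u
        rw [mem_nb, SimpleGraph.mem_neighborFinset]
      rw [e]
      exact G.minDegree_le_degree v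
    obtain ⟨U, hU1, hU2, hU3, hU4⟩ := pack hk1 hk hdeg hδ r
    exact exists_trees G r k U hU1 hU2 hU3 hU4

end Pool.Agent.Lib.MP_f76be0_co.Old.DenseThird
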